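import Pool.Agent.P8H67.TD.Stm
import Pool.Agent.Helper922.HB.Sc.Prism
import Pool.Agent.N340.SV.HB

/-!
# TD/PRI (helper80): the prism of the straight homotopy
-/

set_option autoImplicit false

open Set

namespace Pool.Agent.P8H80.TD

open Pool.Agent.P8H67.TD
open Pool.Agent.N520.SV (Sx Chain face bdry norm1)
open Pool.Agent.Helper922.HB.Sc

/-- from integral to real coefficients -/
noncomputable def rl {A : Type} : (A →₀ ℤ) →+ (A →₀ ℝ) := Finsupp.mapRange.addMonoidHom (Int.castAddHom ℝ)

theorem rl_single {A : Type} (a : A) (x : ℤ) : rl (Finsupp.single a x) = Finsupp.single a (x : ℝ) := by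
  simp [rl]

theorem rl_zsmul {A : Type} (x : ℤ) (c : A →₀ ℤ) : rl (x • c) = (x : ℝ) • rl c := by
  rw [map_zsmul]
  exact (Int.cast_smul_eq_zsmul ℝ x (rl c)).symm

theorem rl_map {A B : Type} (f : A → B) (c : A →₀ ℤ) : rl (Finsupp.mapDomain f c) = Finsupp.mapDomain f (rl c) := by
  induction c using Finsupp.induction_linear with
  | zero => simp
  | add c d hc hd => rw [Finsupp.mapDomain_add, map_add, map_add, Finsupp.mapDomain_add, hc, hd]
  | single a x => rw [Finsupp.mapDomain_single, rl_single, rl_single, Finsupp.mapDomain_single]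

section
variable {E : Type} [NormedAddCommGroup E] [NormedSpace ℝ E]

/-- the straight homotopy -/
noncomputable def HH {n : ℕ} (s s' : C(Sx n, E)) : C(Sx n × unitInterval, E) :=
  ⟨fun p => (1 - (p.2 : ℝ)) • s p.1 + (p.2 : ℝ) • s' p.1, by fun_prop⟩

/-- the universal chain -/
noncomputable def AA (n : ℕ) : (Fin (n + 2) → Dl n × Bool) →₀ ℤ := PR (Dl n) n (Finsupp.single (vert n) 1)

/-- the integral prism -/
noncomputable def pz (n : ℕ) (s s' : C(Sx n, E)) : C(Sx (n + 1), E) →₀ ℤ :=
  Finsupp.mapDomain (fun a => (HH s s').comp (paff a)) (AA n)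

/-- the real prism -/
noncomputable def pr (n : ℕ) (s s' : C(Sx n, E)) : Chain (n + 1) E := rl (pz n s s')

theorem pr_eq (n : ℕ) (s s' : C(Sx n, E)) :
    pr n s s' = Finsupp.mapDomain (fun a => (HH s s').comp (paff a)) (rl (AA n)) := rl_map _ _

theorem bdry_rl {M : Type} [TopologicalSpace M] (k : ℕ) (z : C(Sx (k + 1), M) →₀ ℤ) :
    bdry k (rl z) = rl (sbd M k z) := by
  induction z using Finsupp.induction_linear with
  | zero => simp
  | add c d hc hd => rw [map_add, map_add, map_add, map_add, hc, hd]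
  | single a x =>
    have h1 : (Finsupp.single a x : C(Sx (k + 1), M) →₀ ℤ) = x • Finsupp.single a 1 := by simp
    rw [h1, rl_zsmul, map_smul, LinearMap.map_smul, rl_zsmul]
    congr 1
    rw [rl_single, Int.cast_one]
    show bdry k (Finsupp.single a 1) = rl (bd (sface (X := M)) k (Finsupp.single a 1))
    rw [bd_single, map_sum, bdry, Finsupp.linearCombination_single, one_smul]
    refine Finset.sum_congr rfl fun i _ => ?_
    rw [rl_zsmul, rl_single, Int.cast_one, Int.cast_pow, Int.cast_neg, Int.cast_one]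
    rfl

theorem PD_eq (n : ℕ) {m : ℕ} (s s' : C(Sx m, E)) (σ : C(Sx n, Sx m)) :
    PD (HH s s') n (Finsupp.single σ 1) = pz n (s.comp σ) (s'.comp σ) := by
  rw [PD_single]
  rfl

theorem bdry_pr (n : ℕ) (s s' : C(Sx (n + 1), E)) : bdry (n + 1) (pr (n + 1) s s') =
    Finsupp.single s' 1 - Finsupp.single s 1 -
      ∑ i : Fin (n + 2), ((-1 : ℝ) ^ (i : ℕ)) • pr n (s.comp (face i)) (s'.comp (face i)) := by
  have h := sbd_PD (HH s s') n (Finsupp.single (ContinuousMap.id (Sx (n + 1))) 1)
  rw [PD_eq, cpush_single, cpush_single] at h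
  have h1 : (slice (HH s s') 1).comp (ContinuousMap.id (Sx (n + 1))) = s' := by
    ext t
    simp [slice, HH]
  have h0 : (slice (HH s s') 0).comp (ContinuousMap.id (Sx (n + 1))) = s := by
    ext t
    simp [slice, HH]
  rw [h1, h0] at h
  have h2 : PD (HH s s') n (sbd (Sx (n + 1)) n (Finsupp.single (ContinuousMap.id (Sx (n + 1))) 1)) =
      ∑ i : Fin (n + 2), ((-1 : ℤ) ^ (i : ℕ)) • pz n (s.comp (face i)) (s'.comp (face i)) := by
    show PD (HH s s') n (bd (sface (X := Sx (n + 1))) n (Finsupp.single (ContinuousMap.id (Sx (n + 1))) 1)) = _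
    rw [bd_single, map_sum]
    refine Finset.sum_congr rfl fun i _ => ?_
    rw [map_smul]
    congr 1
    exact PD_eq n s s' (face i)
  rw [h2] at h
  have h3 := congrArg rl h
  rw [map_add, map_sub, rl_single, rl_single, Int.cast_one, map_sum] at h3
  have h4 : rl (sbd E (n + 1) (pz (n + 1) (s.comp (ContinuousMap.id (Sx (n + 1)))) (s'.comp (ContinuousMap.id (Sx (n + 1)))))) =
      bdry (n + 1) (pr (n + 1) s s') := (bdry_rl _ _).symm
  rw [h4] at h3
  rw [← h3, eq_comm, add_sub_assoc, add_eq_left, sub_eq_zero]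
  refine Finset.sum_congr rfl fun i _ => ?_
  rw [rl_zsmul, Int.cast_pow, Int.cast_neg, Int.cast_one]
  rfl

theorem norm1_map_le {A M : Type} [TopologicalSpace M] {k : ℕ} (f : A → C(Sx k, M)) (c : A →₀ ℝ) :
    norm1 (Finsupp.mapDomain f c : Chain k M) ≤ ∑ a ∈ c.support, |c a| := by
  classical
  have h : ∀ (S : Finset A) (g : A → ℝ), norm1 (∑ a ∈ S, Finsupp.single (f a) (g a) : Chain k M) ≤ ∑ a ∈ S, |g a| := by
    intro S g
    induction S using Finset.induction_on with
    | empty => simp [norm1]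
    | insert a S ha ih =>
      rw [Finset.sum_insert ha, Finset.sum_insert ha]
      refine (Pool.Agent.N340.SV.HB.norm1_add _ _).trans (add_le_add ?_ ih)
      have h1 : (Finsupp.single (f a) (g a) : Chain k M) = g a • Finsupp.single (f a) 1 := by simp
      rw [h1, Pool.Agent.N340.SV.HB.norm1_smul, Pool.Agent.N340.SV.HB.norm1_single, mul_one]
  exact h c.support c

end

theorem pri : S_PRI := by
  intro E _ _ _
  refine ⟨pr, fun n s s' => bdry_pr n s s', ?_, ?_, ?_⟩
  · intro n s s' τ hτ t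
    classical
    rw [pr_eq] at hτ
    have h1 := Finsupp.mapDomain_support hτ
    rw [Finset.mem_image] at h1
    obtain ⟨a, -, rfl⟩ := h1
    exact ⟨(paff a t).1, ((paff a t).2 : ℝ), (paff a t).2.2.1, (paff a t).2.2.2, rfl⟩
  · intro n
    refine ⟨∑ a ∈ (rl (AA n)).support, |rl (AA n) a|, fun s s' => ?_⟩
    rw [pr_eq]
    exact norm1_map_le _ _
  · intro g gc hg n s s'
    rw [pr_eq, pr_eq, ← Finsupp.mapDomain_comp]
    congr 1
    funext a
    apply ContinuousMap.ext
    intro t
    show (1 - ((paff a t).2 : ℝ)) • gc (s (paff a t).1) + ((paff a t).2 : ℝ) • gc (s' (paff a t).1) =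
      gc ((1 - ((paff a t).2 : ℝ)) • s (paff a t).1 + ((paff a t).2 : ℝ) • s' (paff a t).1)
    rw [hg, hg, hg, ← AffineMap.lineMap_apply_module, ← AffineMap.lineMap_apply_module]
    exact (g.apply_lineMap _ _ _).symm

end Pool.Agent.P8H80.TD
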