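import Pool.Agent.P8H67.TD.Stm

/-!
# TD/STR (helper80): straightening in the direction of the kernel of `π`
-/

set_option autoImplicit false

open Set

namespace Pool.Agent.P8H80.TD

open Pool.Agent.P8H67.TD
open Pool.Agent.N520.SV (Sx face)

section
variable {E Q Γ : Type} [NormedAddCommGroup E] [NormedSpace ℝ E]
  [FiniteDimensional ℝ E] [NormedAddCommGroup Q] [NormedSpace ℝ Q] [FiniteDimensional ℝ Q]
  [Group Γ] (hol : Γ →* (E ≃ᵃ[ℝ] E)) (π : E →L[ℝ] Q) (σ0 : Q →ₗ[ℝ] E)

/-- the value of `F` for the point `d` and the element `γ` -/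
noncomputable def Fv (γ : Γ) (d p : E) : E :=
  (hol γ).linear ((hol γ⁻¹ p - d) - σ0 (π (hol γ⁻¹ p - d)))

theorem Fv_cont (γ : Γ) (d : E) : Continuous (fun p => Fv hol π σ0 γ d p) := by
  have h1 : Continuous (fun p : E => hol γ⁻¹ p) :=
    (hol γ⁻¹ : E ≃ᵃ[ℝ] E).toAffineMap.continuous_of_finiteDimensional
  have h2 : Continuous (fun v : E => (hol γ).linear v) :=
    ((hol γ).linear : E →ₗ[ℝ] E).continuous_of_finiteDimensional
  have h3 : Continuous (fun v : Q => σ0 v) := σ0.continuous_of_finiteDimensional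
  unfold Fv
  exact h2.comp ((h1.sub continuous_const).sub (h3.comp (π.continuous.comp (h1.sub continuous_const))))

end

theorem aff_sub {E : Type} [NormedAddCommGroup E] [NormedSpace ℝ E] (g : E ≃ᵃ[ℝ] E) (p v : E) :
    g (p - v) = g p - g.linear v := by
  have h := g.map_vadd p (-v)
  simp only [vadd_eq_add, map_neg] at h
  rw [sub_eq_add_neg, add_comm p (-v), h]
  abel

theorem str : S_STR := by
  intro E Q Γ _ _ _ _ _ _ _ hol ρ π Ω hS hfree
  classical
  obtain ⟨σ0, hσ⟩ := (π : E →ₗ[ℝ] Q).exists_rightInverse_of_surjective (LinearMap.range_eq_top.2 hS.surj)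
  have hσ' : ∀ u, π (σ0 u) = u := fun u => LinearMap.congr_fun hσ u
  -- the linear part preserves the kernel
  have hker : ∀ (γ : Γ) (v : E), π v = 0 → π ((hol γ).linear v) = 0 := by
    intro γ v hv
    have h1 := hS.equi γ (0 - v)
    have h2 := hS.equi γ 0
    rw [aff_sub, map_sub, map_sub, hv, sub_zero, h2] at h1
    exact sub_eq_self.1 h1
  have hmul : ∀ (a b : Γ) (p : E), hol (a * b) p = hol a (hol b p) := by
    intro a b p
    rw [map_mul]
    rfl
  have hone : ∀ p : E, hol 1 p = p := by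
    intro p
    rw [map_one]
    rfl
  have hinv : ∀ (γ : Γ) (p : E), hol γ (hol γ⁻¹ p) = p := by
    intro γ p
    rw [← hmul, mul_inv_cancel, hone]
  have hlinmul : ∀ (a b : Γ) (v : E), (hol (a * b)).linear v = (hol a).linear ((hol b).linear v) := by
    intro a b v
    rw [map_mul]
    rfl
  -- orbits
  let R : Setoid E :=
    { r := fun y y' => ∃ γ : Γ, hol γ y = y'
      iseqv := by
        refine ⟨fun y => ⟨1, hone y⟩, ?_, ?_⟩
        · rintro y y' ⟨γ, rfl⟩
          exact ⟨γ⁻¹, by rw [← hmul, inv_mul_cancel, hone]⟩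
        · rintro y y' y'' ⟨γ, rfl⟩ ⟨δ, rfl⟩
          exact ⟨δ * γ, hmul _ _ _⟩ }
  let d : E → E := fun y => Quotient.out (Quotient.mk R y)
  have hd : ∀ y, ∃ γ : Γ, hol γ (d y) = y := fun y => Quotient.exact (s := R) (Quotient.out_eq _)
  let c : E → Γ := fun y => (hd y).choose
  have hc : ∀ y, hol (c y) (d y) = y := fun y => (hd y).choose_spec
  have hdd : ∀ (δ : Γ) (y : E), d (hol δ y) = d y := by
    intro δ y
    have h1 : Quotient.mk R y = Quotient.mk R (hol δ y) := Quotient.sound (s := R) ⟨δ, rfl⟩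
    show Quotient.out (Quotient.mk R (hol δ y)) = Quotient.out (Quotient.mk R y)
    rw [h1]
  have hcc : ∀ (δ : Γ), ∀ y ∈ Ω, c (hol δ y) = δ * c y := by
    intro δ y hy
    have hdΩ : d y ∈ Ω := by
      have h1 := hS.inv (c y)⁻¹ y hy
      have h2 : hol (c y)⁻¹ y = d y := by
        have h20 : hol (c y)⁻¹ (hol (c y) (d y)) = d y := by rw [← hmul, inv_mul_cancel, hone]
        rwa [hc y] at h20
      rwa [h2] at h1
    have h3 : hol (c (hol δ y)) (d y) = hol (δ * c y) (d y) := by
      rw [hmul, hc y]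
      conv_lhs => rw [← hdd δ y]
      exact hc (hol δ y)
    have h4 : hol ((δ * c y)⁻¹ * c (hol δ y)) (d y) = d y := by
      rw [hmul, h3, ← hmul, inv_mul_cancel, hone]
    have h5 := hfree _ _ hdΩ h4
    rw [inv_mul_eq_one] at h5
    exact h5.symm
  -- the functions `F`
  let F : E → E → E := fun y p => if y ∈ Ω then Fv hol π σ0 (c y) (d y) p else 0
  have hFc : ∀ y, Continuous (F y) := by
    intro y
    by_cases hy : y ∈ Ω
    · simp only [F, if_pos hy]
      exact Fv_cont hol π σ0 _ _
    · simp only [F, if_neg hy]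
      exact continuous_const
  have hF0 : ∀ y p, π (F y p) = 0 := by
    intro y p
    by_cases hy : y ∈ Ω
    · simp only [F, if_pos hy, Fv]
      apply hker
      rw [map_sub, hσ', sub_self]
    · simp only [F, if_neg hy, map_zero]
  have hFadd : ∀ y ∈ Ω, ∀ p v, π v = 0 → F y (p - v) = F y p - v := by
    intro y hy p v hv
    simp only [F, if_pos hy, Fv]
    have h1 : π ((hol (c y)⁻¹).linear v) = 0 := hker _ _ hv
    have h2 : (hol (c y)).linear ((hol (c y)⁻¹).linear v) = v := by
      rw [← hlinmul, mul_inv_cancel, map_one]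
      rfl
    rw [aff_sub, show hol (c y)⁻¹ p - (hol (c y)⁻¹).linear v - d y =
      (hol (c y)⁻¹ p - d y) - (hol (c y)⁻¹).linear v by abel, map_sub π, h1, sub_zero,
      show hol (c y)⁻¹ p - d y - (hol (c y)⁻¹).linear v - σ0 (π (hol (c y)⁻¹ p - d y)) =
        (hol (c y)⁻¹ p - d y - σ0 (π (hol (c y)⁻¹ p - d y))) - (hol (c y)⁻¹).linear v by abel,
      map_sub (hol (c y)).linear, h2]
  have hFeq : ∀ (δ : Γ), ∀ y ∈ Ω, ∀ p, F (hol δ y) (hol δ p) = (hol δ).linear (F y p) := by
    intro δ y hy p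
    have hy' := hS.inv δ y hy
    simp only [F, if_pos hy, if_pos hy', Fv]
    rw [hcc δ y hy, hdd, hlinmul]
    have h1 : hol (δ * c y)⁻¹ (hol δ p) = hol (c y)⁻¹ p := by
      rw [← hmul, mul_inv_rev, inv_mul_cancel_right]
    rw [h1]
  have hcont : ∀ n (s : C(Sx n, E)) (x : Fin (n + 1) → E),
      Continuous fun t : Sx n => s t - ∑ i, t.1 i • F (x i) (s t) := by
    intro n s x
    refine s.continuous.sub (continuous_finsetSum _ fun i _ => ?_)
    exact ((continuous_apply i).comp continuous_subtype_val).smul ((hFc (x i)).comp s.continuous)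
  refine ⟨fun n s x => ⟨fun t => s t - ∑ i, t.1 i • F (x i) (s t), hcont n s x⟩, ?_, ?_, ?_, ?_⟩
  · intro n s x t _
    show π (s t - ∑ i, t.1 i • F (x i) (s t)) = π (s t)
    rw [map_sub, map_sum]
    simp only [map_smul, hF0, smul_zero, Finset.sum_const_zero, sub_zero]
  · intro n s s' x hx hss
    apply ContinuousMap.ext
    intro t
    show s t - ∑ i, t.1 i • F (x i) (s t) = s' t - ∑ i, t.1 i • F (x i) (s' t)
    have h1 : π (s t - s' t) = 0 := by rw [map_sub, hss t, sub_self]
    have h2 : ∀ i, F (x i) (s' t) = F (x i) (s t) - (s t - s' t) := by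
      intro i
      rw [← hFadd (x i) (hx.1 i) (s t) _ h1, sub_sub_cancel]
    simp only [h2, smul_sub, Finset.sum_sub_distrib, ← Finset.sum_smul]
    rw [t.2.2]
    simp only [one_smul]
    abel
  · intro n s x i _
    apply ContinuousMap.ext
    intro t
    show s (face i t) - ∑ j, (face i t).1 j • F (x j) (s (face i t)) =
      s (face i t) - ∑ j, t.1 j • F (x (i.succAbove j)) (s (face i t))
    congr 1
    have hface : ∀ j, (face i t).1 j = ∑ l, if i.succAbove l = j then t.1 l else 0 := by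
      intro j
      show FunOnFinite.linearMap ℝ ℝ i.succAbove t.1 j = _
      rw [FunOnFinite.linearMap_apply_apply, Finset.sum_filter]
    rw [Fin.sum_univ_succAbove _ i]
    have h0 : (face i t).1 i = 0 := by
      rw [hface]
      exact Finset.sum_eq_zero fun l _ => if_neg (Fin.succAbove_ne i l)
    have h1 : ∀ j, (face i t).1 (i.succAbove j) = t.1 j := by
      intro j
      rw [hface, Finset.sum_eq_single j]
      · rw [if_pos rfl]
      · intro b _ hb
        exact if_neg fun h => hb (Fin.succAbove_right_injective h)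
      · intro h
        exact absurd (Finset.mem_univ _) h
    rw [h0, zero_smul, zero_add]
    simp only [h1]
  · intro n s s' x γ hx hs t
    show s' t - ∑ i, t.1 i • F (hol γ (x i)) (s' t) = hol γ (s t - ∑ i, t.1 i • F (x i) (s t))
    rw [aff_sub, map_sum, hs t]
    congr 1
    refine Finset.sum_congr rfl fun i _ => ?_
    rw [hFeq γ (x i) (hx.1 i), map_smul]

end Pool.Agent.P8H80.TD
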